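import Pool.Agent.N60.EV.Fin

/-!
# The values on the edge of the L-functions of Chow motives over `ℚ`

Let `M` be any Chow motive over `ℚ` and `H = H^w(M)`.  The Euler product `L(H, s)` converges absolutely
for `Re s > w/2 + 1`, and on the edge `Re s = w/2 + 1` it has boundary values for almost all points.
Nothing is known in general about a continuation to a neighbourhood of a point of the edge.

The theorem determines the set of the boundary values, for several motives together: the values of
`(log L(H_1, s), …, log L(H_m, s))` are dense in `ℂᵐ` (and near every point of `ℂᵐ` with a positive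
frequency in all long intervals) if and only if no linear combination is bounded above on one side, if
and only if the sum of `|∑ c_r a_r(p)| / p` over the primes diverges for all `(c_r) ≠ 0`, where `a_r(p)`
is the normalised trace of Frobenius.  For one motive this is a dichotomy: either `log L(H, s)` extends
to a bounded continuous function on the closed half-plane, or the values of `L(H, s)` on the edge are
dense.  And for one of any `rank H` consecutive symmetric powers of every motive `H`, and more generally
for one Schur functor in each box, the second case is proved, without any hypothesis.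

The definitions are in `Pool/Agent/N60/EV/Defs.lean` and `Pool/Agent/N882/SP/Defs.lean`, `.Schur`.
-/

set_option autoImplicit false

namespace Pool.Agent.Results.MP_148101_nt.EdgeValues

open MeasureTheory Pool.Agent.N60.EV
open Pool.Agent.N882.SP (Motive box IsSchurFunctor)

/-- **The values on the edge.**  `H`, `H_r` are the cohomologies of motives over `ℚ` in one degree, and
`S`, `S_r` are sets of primes, finite or infinite, which contain all bad primes.

0. `L_S(H, s) = exp (log L_S(H, s))` for `Re s > w/2 + 1`, and `log L_S(H, s)` has a boundary function on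
   the edge: limits in all angles outside a set of Hausdorff dimension `0`.
1. Let `l_r` be the boundary function of `log L_{S_r}(H_r, s)`, `r = 1, …, m`.  The following are
   equivalent.
   (a) The values of `(l_1, …, l_m)` are dense in `ℂᵐ`: for all `z` in `ℂᵐ` and `δ > 0` there are `T` and
   `c > 0` such that every interval of length `T` contains a set of measure at least `c` of points
   `τ` with `|l_r(τ) - z_r| < δ` for all `r`.
   (b) For all `c ≠ 0` in `ℂᵐ` the sum over all primes `p` of `|∑ c_r a_r(p)| / p` diverges, where
   `a_r(p)` is the normalised trace of Frobenius at `p ∉ S_r` on `H_r`.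
   (c) For no `c ≠ 0` in `ℂᵐ` is `Re ∑ c_r l_r(τ)` bounded above for almost all `τ`.
2. If the sum over all primes `p ∉ S` of `|a(p)| / p` converges, then `log L_S(H, s)` extends to a
   bounded continuous function on the closed half-plane `Re s ≥ w/2 + 1`.  If it diverges, then by 1. the
   values of the boundary function of `log L_S(H, s)` are dense in `ℂ`.
3. Let `l ≤ rank H` and let `M_lam` be the Schur functors of `H` for all `lam` in the box
   `k_i ≤ lam_i ≤ k_i + rank H - i`, `i = 1, …, l` (for `l = 1`: `rank H` consecutive symmetric powers).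
   There is a `lam` in the box such that the values of the boundary function of
   `log L_S(M_lam, s)` are dense in `ℂ` in the sense of 1 (a), for every finite set `S` which contains the
   bad primes of `M_lam`. -/
theorem result :
    (∀ (H : Motive) (S : Set Nat.Primes), Pure H S →
      (∀ s : ℂ, (H.weight : ℝ) / 2 + 1 < s.re → Complex.exp (logLS H S s) = LS H S s) ∧
      ∃ l : ℝ → ℂ, IsBoundary H S l) ∧
    (∀ (m : ℕ) (H : Fin m → Motive) (S : Fin m → Set Nat.Primes), (∀ r, Pure (H r) (S r)) →
      ∀ l : Fin m → ℝ → ℂ, (∀ r, IsBoundary (H r) (S r) (l r)) →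
        List.TFAE [
          ValuesDense l,
          ∀ c : Fin m → ℂ, c ≠ 0 →
            ¬ Summable fun p : Nat.Primes => ‖∑ r, c r * ntr (H r) (S r) p‖ / (p : ℕ),
          ∀ c : Fin m → ℂ, c ≠ 0 → ∀ B : ℝ, ¬ ∀ᵐ τ : ℝ, (∑ r, c r * l r τ).re ≤ B]) ∧
    (∀ (H : Motive) (S : Set Nat.Primes), Pure H S →
      (Summable fun p : Nat.Primes => ‖ntr H S p‖ / (p : ℕ)) →
      ∃ Φ : ℂ → ℂ, ContinuousOn Φ {s : ℂ | (H.weight : ℝ) / 2 + 1 ≤ s.re} ∧
        (∃ C : ℝ, ∀ s : ℂ, (H.weight : ℝ) / 2 + 1 ≤ s.re → ‖Φ s‖ ≤ C) ∧
        ∀ s : ℂ, (H.weight : ℝ) / 2 + 1 < s.re → Φ s = logLS H S s) ∧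
    (∀ (H : Motive) (l : ℕ) (_ : l ≤ H.rank) (k : Fin l → ℕ) (M : (Fin l → ℕ) → Motive)
      (_ : ∀ lam ∈ box H.rank k, IsSchurFunctor H lam (M lam)),
      ∃ lam ∈ box H.rank k, ∀ S : Set Nat.Primes, S.Finite → Pure (M lam) S →
        ∀ f : ℝ → ℂ, IsBoundary (M lam) S f → ValuesDense fun _ : Fin 1 => f) :=
  ⟨fun _ _ hS => ⟨fun _ hs => exp_logLS hS hs, _, exists_boundary hS⟩,
    fun _ _ _ hS _ hl => tfae_values hS hl,
    fun _ _ hS h => bounded_case hS h,
    fun H l hl k M hM => schur_dense H l hl k M hM⟩

end Pool.Agent.Results.MP_148101_nt.EdgeValues
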