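import Pool.Agent.N19.BR.AMain

/-!
# Meromorphic continuation of L-functions of motives: reduction to number fields with hyperelementary
Galois action, large local degrees and at most two real places

`K` is a number field (`K = ℚ` in the problem), `L` a finite Galois extension of `K` and `S` a finite set of
primes of `K`.  A motive `M` over `K` enters through the eigenvalues `α v` of the geometric Frobenius at the
primes `v` of `K` on `H^i(M)`; over an extension `F` of `K` they are raised to the power of the residue
degree.

The proof.  There is a relation `∑ e_j [F_j] = [K]`, with coefficient `1` on the right, between the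
permutation characters of finite extensions `F_j` of `K` with the properties below
(`Pool.Agent.N19.BR`: for every prime number `p` a relation with a coefficient prime to `p`, in which the
Galois groups of `L F_j / F_j` are `p`-hyperelementary, refined by the relations for the splitting fields of
the polynomials `(X^ℓ - a) h`, `ℓ ≠ p`, `a` a uniformizer at the primes in `S` and `h` of degree `ℓ` and
irreducible modulo these primes, and for `p ≠ 2` by the relations for `F(√a_1, …, √a_r)`, `a_j` positive at
only one of the `r` real places of `F`).  It gives `L(M, s) = R(s) ∏ L(M_{F_j}, s) ^ e_j`, with `R` from the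
Euler factors at finitely many primes.

The definitions are in `Pool.Agent.N19.BR.ADefs`, `MDefs`, `TDefs` and `Defs`.
-/

set_option autoImplicit false

namespace Pool.Agent.Results.MP_148101_nt.MotivesOverSpecialFields

open NumberField IsDedekindDomain Polynomial Pool.Agent.N19.BR.TDef Pool.Agent.N19.BR.MDef

/-- **Continuation and divisors.**  Let `L/K` be a finite Galois extension of number fields, `S` a finite
set of primes of `K` and `k ≥ 1`.  There is a list of number fields `F_j ⊇ K` with integers `e_j`, such that
for every `j` there is a prime number `p` for which the Galois group of `L F_j / F_j` is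
`p`-hyperelementary, the divisors of `k` prime to `p` divide the local degrees of `F_j / K` at the primes above
`S`, and `F_j` has at most two real places if `p ≠ 2`, and such that the following holds for ALL motives
`M` over `K`, all weights `i` and all connected `U` that contain the half-plane of absolute convergence, for
example `U = ℂ`: if the functions `L(M_{F_j}, s)` have meromorphic continuations to `U`, then so has
`L(M, s)`, and its divisor is the sum of the divisors of the `L(M_{F_j}, s)` with the coefficients `e_j`
at all points where no Euler factor has a pole (for example in `Re s > i/2`, if the bad factors have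
weights at most `i`). -/
theorem result (K : Type) [Field K] [NumberField K] (L : Type) [Field L] [NumberField L]
    [Algebra K L] [IsGalois K L] (S : Set (HeightOneSpectrum (𝓞 K))) (hS : S.Finite) (k : ℕ)
    (hk : k ≠ 0) :
    ∃ Y : FieldList K, HyperelementaryList L S k Y ∧
      ∀ (i : ℤ) (N : ℕ) (α : HeightOneSpectrum (𝓞 K) → Fin N → ℂ), Pure i α →
        ∀ U : Set ℂ, Region i U →
        ∀ (B : ∀ j, HeightOneSpectrum (𝓞 (Y.F j)) → ℂ[X]) (Λ : Fin Y.r → ℂ → ℂ),
          (∀ j, FactorsOver α (B j) ∧ Continues U (B j) 1 (Λ j)) → Descends Y α U B Λ := by
  obtain ⟨Y, hY, hrel⟩ := Pool.Agent.N19.BR.hyper_list K L S hS k hk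
  exact ⟨Y, hY, fun i N α hα U hU B Λ hB =>
    Pool.Agent.N19.BR.descends_of_rel hrel hα hU B Λ hB⟩

end Pool.Agent.Results.MP_148101_nt.MotivesOverSpecialFields
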