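import Mathlib
import Pool.Agent.N534.TP.Complete

/-!
# L-functions of tensor products of plane curves near the whole edge line, in mean square

Let `f_1, …, f_k` be linear systems of plane curves over `ℤ` (each with a smooth member, without a base curve, and
such that there are members through any three points but not through a fourth one, modulo all large primes), and
let `C_1, …, C_k` run through their members of height at most `H`. Consider the Chow motives

`M = ⊕_j h¹(C_1)^{⊗ m_{j1}} ⊗ … ⊗ h¹(C_k)^{⊗ m_{jk}} (- t_j)`, `m_{ji} ∈ {0, 1, 2}`, `∑_i m_{ji} + 2 t_j = w` for all `j`,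

of weight `w`; all `H^w(C_1 × … × C_k)`, and the `H^w` of the products in which every curve occurs at most twice, are
of this kind (Künneth). Let `κ` be the number of the `j` for which no curve occurs exactly once (`m_{ji} ≠ 1` for all
`i`): those are the summands with a Galois invariant class of degree `w / 2`, given by the intersection forms.

Q1 says that the L-function of `M` has a meromorphic continuation, which is entire for odd `w` and also if there are
no Galois invariants in `H^w(w/2)`; the expected pole at `s = w / 2 + 1` has the order `κ`. We prove, with no hypothesis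
on continuation: in mean square over the `k`-tuples of curves of height at most `H`, the supremum over the rectangle
`s = w / 2 + 1 + ε + iτ`, `1 / log H ≤ ε ≤ 1`, `|τ| ≤ T`, of `| log |L(M, s)| - κ log |ζ(s - w / 2)| |` is at most
`(C (1 + T)) ^ (1/2)`, where `C` depends neither on `H` nor on `T`. So for all tuples except for a proportion `δ` the
quotient `L(M, s) / ζ(s - w / 2) ^ κ` is bounded from above and from below in the whole rectangle, by a constant
depending on `T / δ` only: no pole or zero of the edge line but the expected pole of order `κ` is seen at the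
distance `1 / log H`.

Parts 2 and 3 make this explicit for the families of all plane curves of degrees `d_1, …, d_k ≥ 3`: for
`H^w(C_1 × … × C_k)` one has `κ = C(k, w/2)` for even `w` and `κ = 0` for odd `w`; for the tensor product
`h¹(C_1)^{⊗ m_1} ⊗ … ⊗ h¹(C_k)^{⊗ m_k}` one has `κ = 1` if all `m_i` are even and `κ = 0` otherwise.

The starting result `MP_1f4fc7_nt.RandomCurveProducts` is the case `w = 2` at the real points `s = 2 + ε`. The proof
uses its fourth moments modulo primes and the mean square method of `Pool.Agent.Y722`; new are all weights and tensor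
products, and the whole line (`Pool/Agent/N534/TP`, and `Pool/Agent/N534/TL`: the Dirichlet polynomial is bounded in
rectangles by its square means over circles).
-/

set_option autoImplicit false

open Finset

namespace Pool.Agent.Results.MP_148101_nt.RandomTensorProducts

/-- The form `∑ c_a f_a` with coefficients in the ring `R`. -/
noncomputable def eqn {ι : Type} [Fintype ι] (f : ι → MvPolynomial (Fin 3) ℤ) {R : Type*} [CommRing R]
    (c : ι → R) : MvPolynomial (Fin 3) R :=
  ∑ a, MvPolynomial.C (c a) * MvPolynomial.map (Int.castRingHom R) (f a)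

/-- The plane curve `F = 0` over an algebraically closed field is smooth. -/
def Smooth {K : Type*} [Field K] (F : MvPolynomial (Fin 3) K) : Prop :=
  ∀ x : Fin 3 → K, x ≠ 0 → MvPolynomial.eval x F = 0 → ∃ i, MvPolynomial.eval x (MvPolynomial.pderiv i F) ≠ 0

/-- Reduction of integer coefficients modulo `p`. -/
def mod {ι : Type} (p : ℕ) (c : ι → ℤ) : ι → ZMod p := fun a => (c a : ZMod p)

/-- `a_p(C) = p + 1 - #C(𝔽_p)` for the curve `C : ∑ c_a f_a = 0` over `𝔽_p`; its cone has `(p - 1) #C(𝔽_p)` nonzero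
points. -/
noncomputable def ap {ι : Type} [Fintype ι] (f : ι → MvPolynomial (Fin 3) ℤ) (p : ℕ) (c : ι → ZMod p) : ℝ :=
  (p : ℝ) + 1 -
    (Nat.card {x : Fin 3 → ZMod p // x ≠ 0 ∧ MvPolynomial.eval x (eqn f c) = 0} : ℝ) / ((p : ℝ) - 1)

/-- The linear system has a smooth member, `O(p)` base points modulo `p`, and modulo every large prime `p` it has for
every point off the base locus and three further points a member through the three points but not through the first. -/
def Good {ι : Type} [Fintype ι] (f : ι → MvPolynomial (Fin 3) ℤ) : Prop :=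
  (∃ c₀ : ι → ℤ, Smooth (eqn f (fun a => (c₀ a : ℂ)))) ∧
  ∃ (p₀ : ℕ) (C₀ : ℝ), ∀ p : ℕ, p.Prime → p₀ ≤ p →
    (Nat.card {x : Fin 3 → ZMod p // x ≠ 0 ∧ ∀ a, MvPolynomial.aeval x (f a) = 0} : ℝ) ≤ C₀ * p ∧
    ∀ (x : Fin 3 → ZMod p) (y : Fin 3 → Fin 3 → ZMod p), (∃ a, MvPolynomial.aeval x (f a) ≠ 0) →
      (∀ s, ∃ i j, x i * y s j ≠ x j * y s i) →
      ∃ c : ι → ZMod p, MvPolynomial.eval x (eqn f c) ≠ 0 ∧ ∀ s, MvPolynomial.eval (y s) (eqn f c) = 0

/-- `γ p 1, …, γ p b` are the eigenvalues of the geometric Frobenius at `p` on the inertia invariants of the motive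
`M = ⊕_j ⊗_i h¹(C_i)^{⊗ m j i} (- t j)` of weight `w`, zeros added if necessary, where `C_i` is the curve
`∑_a c ⟨i, a⟩ f i a = 0`: they have absolute value at most `p ^ (w / 2)`, and if all the `C_i` are smooth modulo `p`, then
their sum is the trace `∑_j p ^ (t j) ∏_i a_p(C_i) ^ (m j i)`. -/
structure Eigenvalues {k : ℕ} {ι : Fin k → Type} [∀ i, Fintype (ι i)]
    (f : ∀ i, ι i → MvPolynomial (Fin 3) ℤ) {J : Type} [Fintype J] (m : J → Fin k → ℕ) (t : J → ℕ)
    (w b : ℕ) (c : (Σ i, ι i) → ℤ) (γ : ℕ → Fin b → ℂ) : Prop where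
  size : ∀ p : ℕ, p.Prime → ∀ j, ‖γ p j‖ ≤ (p : ℝ) ^ ((w : ℝ) / 2)
  trace : ∀ (p : ℕ) [Fact p.Prime],
    (∀ i, Smooth (MvPolynomial.map (algebraMap (ZMod p) (AlgebraicClosure (ZMod p)))
      (eqn (f i) (mod p (fun a => c ⟨i, a⟩))))) →
    ∑ j, γ p j = ((∑ j, (p : ℝ) ^ (t j) * ∏ i, ap (f i) p (mod p (fun a => c ⟨i, a⟩)) ^ (m j i) : ℝ) : ℂ)

/-- The L-function. -/
noncomputable def L {b : ℕ} (γ : ℕ → Fin b → ℂ) (s : ℂ) : ℂ :=
  ∏' p : Nat.Primes, ∏ j, (1 - γ p j * ((p : ℕ) : ℂ) ^ (-s))⁻¹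

/-- The integer vectors with coordinates of absolute value at most `H`. -/
noncomputable def box (ι : Type) [Fintype ι] [DecidableEq ι] (H : ℕ) : Finset (ι → ℤ) :=
  Fintype.piFinset fun _ => Finset.Icc (-(H : ℤ)) H

/-- The L-functions of the motives `⊕_j ⊗_i h¹(C_i)^{⊗ m j i} (- t j)` of weight `w`, for the curves
`C_i : ∑_a c ⟨i, a⟩ f i a = 0` with `c` in the box of height `H`, behave near the line `Re s = w / 2 + 1` like
`ζ(s - w / 2) ^ κ`: (1) mean square of the error, at points which may depend on the curves; (2) the error in the whole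
rectangle for all curves outside of an exceptional set of proportion `δ`. `C` depends neither on `H` nor on `T`. -/
def NearLine {k : ℕ} {ι : Fin k → Type} [∀ i, Fintype (ι i)] [∀ i, DecidableEq (ι i)]
    (f : ∀ i, ι i → MvPolynomial (Fin 3) ℤ) {J : Type} [Fintype J] (m : J → Fin k → ℕ) (t : J → ℕ)
    (w b : ℕ) (κ : ℝ) : Prop :=
  ∃ C : ℝ, 0 < C ∧ ∀ H : ℕ, 2 ≤ H → ∀ T : ℝ, 0 ≤ T →
    (∀ S ⊆ box (Σ i, ι i) H, ∀ (γ : ((Σ i, ι i) → ℤ) → ℕ → Fin b → ℂ) (ε τ : ((Σ i, ι i) → ℤ) → ℝ),
      (∀ c ∈ S, Eigenvalues f m t w b c (γ c)) →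
      (∀ c ∈ S, 1 / Real.log H ≤ ε c ∧ ε c ≤ 1 ∧ |τ c| ≤ T) →
      ∑ c ∈ S, (Real.log ‖L (γ c) (w / 2 + 1 + ε c + τ c * Complex.I)‖ -
        κ * Real.log ‖riemannZeta (1 + ε c + τ c * Complex.I)‖) ^ 2 ≤
          C * (1 + T) * (box (Σ i, ι i) H).card) ∧
    (∀ δ : ℝ, 0 < δ → ∃ E ⊆ box (Σ i, ι i) H, (E.card : ℝ) ≤ δ * (box (Σ i, ι i) H).card ∧
      ∀ c ∈ box (Σ i, ι i) H \ E, ∀ γ : ℕ → Fin b → ℂ, Eigenvalues f m t w b c γ → ∀ ε τ : ℝ,
        1 / Real.log H ≤ ε → ε ≤ 1 → |τ| ≤ T →
        L γ (w / 2 + 1 + ε + τ * Complex.I) ≠ 0 ∧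
        |Real.log ‖L γ (w / 2 + 1 + ε + τ * Complex.I)‖ -
          κ * Real.log ‖riemannZeta (1 + ε + τ * Complex.I)‖| ≤ Real.sqrt (C * (1 + T) / δ))

/-- The exponents of the monomials of degree `d` in three variables. -/
abbrev Exponents (d : ℕ) : Type := {ν : Fin (2 + 1) → Fin (d + 1) // ∑ i, (ν i : ℕ) = d}

/-- The complete linear system of the plane curves of degree `d`. -/
noncomputable def monomials (d : ℕ) (ν : Exponents d) : MvPolynomial (Fin 3) ℤ :=
  ∏ i, MvPolynomial.X i ^ (ν.1 i : ℕ)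

/-- The Künneth components of `H^w(C_1 × … × C_k)` which are not zero: the pairs `(A, B)` of disjoint sets of indices
with `|A| + 2 |B| = w` (the factors `i ∈ A` contribute `H¹(C_i)`, the factors `i ∈ B` contribute `H²(C_i)`, and the
other ones `H⁰(C_i)`). -/
abbrev Kunneth (k w : ℕ) : Type :=
  {q : Finset (Fin k) × Finset (Fin k) // Disjoint q.1 q.2 ∧ q.1.card + 2 * q.2.card = w}

section
variable {k : ℕ} {ι : Fin k → Type} [∀ i, Fintype (ι i)] [∀ i, DecidableEq (ι i)]

lemma near (f : ∀ i, ι i → MvPolynomial (Fin 3) ℤ) (d : Fin k → ℕ) (hd : ∀ i, 1 ≤ d i)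
    (hf : ∀ i j, (f i j).IsHomogeneous (d i)) (hgood : ∀ i, Good (f i))
    {J : Type} [Fintype J] (m : J → Fin k → ℕ) (t : J → ℕ) (w b : ℕ) (hm : ∀ j i, m j i ≤ 2)
    (hw : ∀ j, ∑ i, m j i + 2 * t j = w) : NearLine f m t w b (Pool.Agent.N534.TP.kap m) := by
  classical
  choose c₀ hsm using fun i => (hgood i).1
  choose p₀ C₀ hp using fun i => (hgood i).2
  have hp0 : ∀ i, p₀ i ≤ ∑ i, p₀ i := fun i =>
    Finset.single_le_sum (f := p₀) (fun _ _ => Nat.zero_le _) (Finset.mem_univ i)
  have hC0 : ∀ i, C₀ i ≤ ∑ i, |C₀ i| := fun i => (le_abs_self _).trans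
    (Finset.single_le_sum (f := fun i => |C₀ i|) (fun _ _ => abs_nonneg _) (Finset.mem_univ i))
  obtain ⟨C, hC, h⟩ := Pool.Agent.N534.TP.tensor_majorant (f := f) (C0 := ∑ i, |C₀ i|) (m := m) (t := t)
    (w := w) hd hf c₀ hsm (∑ i, p₀ i)
    (fun i p hpp h => (hp i p hpp ((hp0 i).trans h)).2)
    (fun i p hpp h => ((hp i p hpp ((hp0 i).trans h)).1).trans
      (mul_le_mul_of_nonneg_right (hC0 i) (Nat.cast_nonneg p))) hm hw b
  refine ⟨C, hC, fun H hH T hT => ?_⟩
  obtain ⟨M, hM0, hM1, hM2⟩ := h H hH T hT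
  have hM2' : ∀ (c : (Σ i, ι i) → ℤ) (γ : ℕ → Fin b → ℂ) (ε τ : ℝ), Eigenvalues f m t w b c γ →
      1 / Real.log H ≤ ε → ε ≤ 1 → |τ| ≤ T →
      (Real.log ‖L γ (w / 2 + 1 + ε + τ * Complex.I)‖ -
        Pool.Agent.N534.TP.kap m * Real.log ‖riemannZeta (1 + ε + τ * Complex.I)‖) ^ 2 ≤ M c :=
    fun c γ ε τ hγ => hM2 c γ ε τ ⟨hγ.size, hγ.trace⟩
  have hbox : box (Σ i, ι i) H = Pool.Agent.Y722.HS.box (Σ i, ι i) H := rfl
  have hB : (0 : ℝ) < (2 * H + 1 : ℝ) ^ Fintype.card (Σ i, ι i) := by positivity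
  have hsum : ∑ c ∈ box (Σ i, ι i) H, M c ≤ C * (1 + T) * (box (Σ i, ι i) H).card := by
    rw [hbox]
    calc _ = Pool.Agent.Y722.HS.EB H M * (Pool.Agent.Y722.HS.box (Σ i, ι i) H).card := by
          rw [Pool.Agent.Y722.HS.EB, Pool.Agent.Y722.HS.card_box]
          field_simp
      _ ≤ _ := by gcongr
  refine ⟨fun S hS γ ε τ hγ hε => ?_, fun δ hδ => ?_⟩
  · calc _ ≤ ∑ c ∈ S, M c := Finset.sum_le_sum fun c hc =>
          hM2' c (γ c) (ε c) (τ c) (hγ c hc) (hε c hc).1 (hε c hc).2.1 (hε c hc).2.2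
      _ ≤ ∑ c ∈ box (Σ i, ι i) H, M c := Finset.sum_le_sum_of_subset_of_nonneg hS fun c _ _ => hM0 c
      _ ≤ _ := hsum
  · have hCT : 0 < C * (1 + T) := by positivity
    refine ⟨(box (Σ i, ι i) H).filter (fun c => C * (1 + T) / δ < M c), Finset.filter_subset _ _, ?_, ?_⟩
    · have h1 : (((box (Σ i, ι i) H).filter (fun c => C * (1 + T) / δ < M c)).card : ℝ) *
          (C * (1 + T) / δ) ≤ ∑ c ∈ (box (Σ i, ι i) H).filter (fun c => C * (1 + T) / δ < M c), M c := by
        rw [← nsmul_eq_mul]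
        exact Finset.card_nsmul_le_sum _ _ _ fun c hc => (Finset.mem_filter.mp hc).2.le
      have h2 : ∑ c ∈ (box (Σ i, ι i) H).filter (fun c => C * (1 + T) / δ < M c), M c ≤
          ∑ c ∈ box (Σ i, ι i) H, M c :=
        Finset.sum_le_sum_of_subset_of_nonneg (Finset.filter_subset _ _) fun c _ _ => hM0 c
      have h3 := (h1.trans h2).trans hsum
      rw [mul_div_assoc', div_le_iff₀ hδ] at h3
      have h4 : (C * (1 + T)) * (((box (Σ i, ι i) H).filter (fun c => C * (1 + T) / δ < M c)).card : ℝ) ≤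
          (C * (1 + T)) * (δ * (box (Σ i, ι i) H).card) := by linarith
      exact le_of_mul_le_mul_left h4 hCT
    · intro c hc γ hγ ε τ hε0 hε1 hτ
      rw [Finset.mem_sdiff, Finset.mem_filter, not_and, not_lt] at hc
      have h1 := hM2' c γ ε τ hγ hε0 hε1 hτ
      have h2 := h1.trans (hc.2 hc.1)
      refine ⟨?_, Real.abs_le_sqrt h2⟩
      have hlogH : 0 < Real.log H := Real.log_pos (by exact_mod_cast (by omega : 1 < H))
      have hεp : 0 < ε := lt_of_lt_of_le (by positivity) hε0
      have hs1 : Pool.Agent.Y722.HS.ss (w + 1) ε = (w : ℂ) / 2 + 1 + ε := by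
        unfold Pool.Agent.Y722.HS.ss
        push_cast
        ring
      have hbound : ∀ p : ℕ, p.Prime → ∀ j,
          ‖Pool.Agent.N534.TL.twist γ τ p j‖ ≤ (p : ℝ) ^ ((((w + 1 : ℕ) : ℝ) - 1) / 2) := by
        intro p hp j
        have e : (((w + 1 : ℕ) : ℝ) - 1) / 2 = (w : ℝ) / 2 := by push_cast; ring
        rw [e, Pool.Agent.N534.TL.twist_norm γ τ p hp]
        exact hγ.size p hp j
      have hL : L γ (w / 2 + 1 + ε + τ * Complex.I) =
          Pool.Agent.Y722.HS.LP γ (w / 2 + 1 + ε + τ * Complex.I) := rfl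
      rw [hL, ← hs1, ← Pool.Agent.N534.TL.LP_twist, Pool.Agent.Y722.HS.LP_eq hεp hbound]
      exact Complex.exp_ne_zero _

end

lemma good_monomials {d : ℕ} (hd : 3 ≤ d) : Good (monomials d) := by
  refine ⟨Pool.Agent.N534.TP.smooth_monos (by omega), 0, 0, fun p hp _ => ⟨?_, ?_⟩⟩
  · have h := Pool.Agent.N534.TP.bcone_monos (d := d) p hp
    have h2 : Nat.card {x : Fin 3 → ZMod p // x ≠ 0 ∧ ∀ a, MvPolynomial.aeval x (monomials d a) = 0} = 0 := h
    rw [h2]
    simp
  · exact Pool.Agent.N534.TP.separates4_monos hd p hp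

lemma kap_kunneth (k w : ℕ) :
    Pool.Agent.N534.TP.kap (fun (q : Kunneth k w) (i : Fin k) => if i ∈ q.1.1 then 1 else 0) =
    if Even w then (k.choose (w / 2) : ℝ) else 0 := by
  classical
  have h0 : ∀ q : Kunneth k w, (∀ i, (if i ∈ q.1.1 then 1 else 0 : ℕ) ≠ 1) ↔ q.1.1 = ∅ := by
    intro q
    rw [Finset.eq_empty_iff_forall_notMem]
    refine forall_congr' fun i => ?_
    split_ifs with h <;> simp [h]
  unfold Pool.Agent.N534.TP.kap
  simp_rw [h0]
  rw [Finset.sum_boole]
  by_cases hw : Even w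
  · rw [if_pos hw]
    obtain ⟨v, hv⟩ := hw
    have hv2 : w / 2 = v := by omega
    rw [hv2]
    congr 1
    have h1 : (Finset.powersetCard v (Finset.univ : Finset (Fin k))).card = k.choose v := by
      rw [Finset.card_powersetCard, Finset.card_univ, Fintype.card_fin]
    rw [← h1]
    refine Finset.card_bij (fun q _ => q.1.2) ?_ ?_ ?_
    · intro q hq
      rw [Finset.mem_filter] at hq
      rw [Finset.mem_powersetCard]
      refine ⟨Finset.subset_univ _, ?_⟩
      have := q.2.2
      rw [hq.2, Finset.card_empty] at this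
      omega
    · intro q hq q' hq' h
      rw [Finset.mem_filter] at hq hq'
      apply Subtype.ext
      exact Prod.ext (hq.2.trans hq'.2.symm) h
    · intro B hB
      rw [Finset.mem_powersetCard] at hB
      refine ⟨⟨(∅, B), ⟨Finset.disjoint_empty_left _, ?_⟩⟩, ?_, rfl⟩
      · simp only [Finset.card_empty]
        omega
      · rw [Finset.mem_filter]
        exact ⟨Finset.mem_univ _, rfl⟩
  · rw [if_neg hw]
    have : (Finset.univ.filter fun q : Kunneth k w => q.1.1 = ∅) = ∅ := by
      rw [Finset.filter_eq_empty_iff]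
      intro q _ hq
      apply hw
      have := q.2.2
      rw [hq, Finset.card_empty] at this
      exact ⟨q.1.2.card, by omega⟩
    rw [this]
    simp

lemma homog {d : ℕ} (ν : Exponents d) : (monomials d ν).IsHomogeneous d :=
  Pool.Agent.N534.TP.homog_monos ν

/-- (1) All direct sums of tensor products of the members of linear systems of plane curves, each curve at most
twice. (2) `H^w(C_1 × … × C_k)` and (3) the tensor products, for all plane curves of degrees `d_1, …, d_k ≥ 3`. -/
theorem result :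
    (∀ (k : ℕ) (ι : Fin k → Type) [∀ i, Fintype (ι i)] [∀ i, DecidableEq (ι i)]
      (f : ∀ i, ι i → MvPolynomial (Fin 3) ℤ) (d : Fin k → ℕ), (∀ i, 1 ≤ d i) →
      (∀ i j, (f i j).IsHomogeneous (d i)) → (∀ i, Good (f i)) →
      ∀ (J : Type) [Fintype J] (m : J → Fin k → ℕ) (t : J → ℕ) (w b : ℕ), (∀ j i, m j i ≤ 2) →
      (∀ j, ∑ i, m j i + 2 * t j = w) →
      NearLine f m t w b ({j : J | ∀ i, m j i ≠ 1}.ncard : ℝ)) ∧
    (∀ (k : ℕ) (d : Fin k → ℕ), (∀ i, 3 ≤ d i) → ∀ w b : ℕ,
      NearLine (fun i => monomials (d i)) (J := Kunneth k w) (fun q i => if i ∈ q.1.1 then 1 else 0)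
        (fun q => q.1.2.card) w b (if Even w then (k.choose (w / 2) : ℝ) else 0)) ∧
    (∀ (k : ℕ) (d : Fin k → ℕ), (∀ i, 3 ≤ d i) → ∀ m : Fin k → ℕ, (∀ i, m i ≤ 2) → ∀ b : ℕ,
      NearLine (fun i => monomials (d i)) (J := Unit) (fun _ i => m i) (fun _ => 0) (∑ i, m i) b
        (if ∀ i, Even (m i) then 1 else 0)) := by
  classical
  refine ⟨?_, ?_, ?_⟩
  · intro k ι _ _ f d hd hf hgood J _ m t w b hm hw
    have h := near f d hd hf hgood m t w b hm hw
    have e : Pool.Agent.N534.TP.kap m = ({j : J | ∀ i, m j i ≠ 1}.ncard : ℝ) := by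
      unfold Pool.Agent.N534.TP.kap
      rw [Finset.sum_boole, Set.ncard_eq_toFinset_card']
      congr 2
      ext j
      simp
    rwa [e] at h
  · intro k d hd w b
    have h := near (fun i => monomials (d i)) d (fun i => by have := hd i; omega)
      (fun i j => homog j) (fun i => good_monomials (hd i)) (J := Kunneth k w)
      (fun q i => if i ∈ q.1.1 then 1 else 0) (fun q => q.1.2.card) w b
      (fun q i => by split_ifs <;> norm_num) (fun q => by
        rw [Finset.sum_boole]
        simpa using q.2.2)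
    rwa [kap_kunneth] at h
  · intro k d hd m hm b
    have h := near (fun i => monomials (d i)) d (fun i => by have := hd i; omega)
      (fun i j => homog j) (fun i => good_monomials (hd i)) (J := Unit)
      (fun _ i => m i) (fun _ => 0) (∑ i, m i) b (fun _ i => hm i) (fun _ => by simp)
    have e : Pool.Agent.N534.TP.kap (fun (_ : Unit) i => m i) = if ∀ i, Even (m i) then 1 else 0 := by
      unfold Pool.Agent.N534.TP.kap
      have h1 : (∀ i, m i ≠ 1) ↔ ∀ i, Even (m i) := by
        refine forall_congr' fun i => ?_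
        have h2 := hm i
        generalize m i = n at h2 ⊢
        interval_cases n <;> decide
      simp only [Finset.univ_unique, Finset.sum_const, Finset.card_singleton, one_smul, h1]
    rwa [e] at h

end Pool.Agent.Results.MP_148101_nt.RandomTensorProducts
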