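import Pool.Agent.N882.SP.Fin

/-!
# The edge of the L-functions of the Schur functors of an arbitrary Chow motive

Let `M` be any Chow motive over `ℚ` and `H = H^w(M)`, of dimension `N`.  For a partition `lam` the Schur
functor `S_lam(H)` (for example `Sym^k(H)`) and `End(S_lam(H)) = S_lam(H) ⊗ S_lam(H)^∨` are again
cohomology groups of Chow motives.  The Euler product of `L(S_lam(H), s)` converges absolutely for
`Re s > |lam| w / 2 + 1` and the one of `L(End(S_lam(H)), s)` for `Re s > 1`.  One expects that this is the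
exact half-plane of absolute convergence and that `L(End(S_lam(H)), s)`, which is in the exceptional
case of the problem (there are Galois-invariant classes), has a pole at `s = 1`.  This is not known in
general for a single `lam ≠ 0`, since the distribution of the Frobenius eigenvalues is not known.

The theorem gives both assertions, without any hypothesis, for one `lam` in each box of
`N (N - 1) ⋯ (N - l + 1)` partitions with at most `l` parts: so for one of any `N` consecutive
symmetric powers `Sym^{m+1}(H), …, Sym^{m+N}(H)` (`l = 1`), and for a positive proportion of all Schur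
functors (`l = N`).  The definitions are in `Pool/Agent/N882/SP/Defs.lean` and `.Schur`.
-/

set_option autoImplicit false

namespace Pool.Agent.Results.MP_148101_nt.SchurFunctors

open Filter Topology Polynomial Pool.Agent.N882.SP

/-- **Schur functors.**  `H` is the cohomology of a motive over `ℚ`, of rank `N` (only the eigenvalues
of Frobenius at almost all primes matter), `l ≤ N`, and `S_lam = S_lam(H)` for all `lam` in the box
`m_i ≤ lam_i ≤ m_i + N - i` (`i = 1, …, l`); the box consists of partitions if for example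
`m_i ≥ m_{i+1} + N - i - 1`.  Let `W = ∏_{i=1}^{l} C(2(N - i), N - i)`.
1. For almost all primes `p` the sum of `|tr(Frob_p | S_lam)|² / p^{w(S_lam)}` over the box is at least
`1 / W`.
2. There is a `lam` in the box such that the Dirichlet series `L(S_lam, s)` does not converge absolutely
at the edge `s = w(S_lam)/2 + 1` (`∑_p |tr(Frob_p | S_lam)| / p^{w(S_lam)/2 + 1} = ∞`), and such that
`L(End(S_lam), 1 + ε)` tends to infinity for `ε → 0+`.
3. For all `η > 0` and all small `ε > 0` the sum of `log |L(End(S_lam), 1 + ε)| / log(1/ε)` over the box is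
at least `1 / W - η / W`.  If there are meromorphic continuations to neighbourhoods of `s = 1`, then
they have no zeros at `s = 1`, and at least one has a pole there.
4. Let `H'` be another motive.  For all `η > 0` and all small `ε > 0`,
`log |L(End(H'), 1 + ε)| / log(1/ε) ≤ W ∑ log |L(End(S_lam ⊗ H'), 1 + ε)| / log(1/ε) + η`, and the same
inequality holds for the orders of the poles at `s = 1`, if they exist.  `L(End(H'), 1 + ε)` tends to
infinity for `ε → 0+` if and only if `L(End(S_lam ⊗ H'), 1 + ε)` does so for a `lam` in the box. -/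
theorem result (H : Motive) (l : ℕ) (hl : l ≤ H.rank) (m : Fin l → ℕ)
    (S : (Fin l → ℕ) → Motive) (hS : ∀ lam ∈ box H.rank m, IsSchurFunctor H lam (S lam)) :
    (∀ᶠ p : Nat.Primes in cofinite, 1 ≤ (wt H.rank l : ℝ) * ∑ lam ∈ box H.rank m,
      ‖((S lam).frob p).sum‖ ^ 2 / (p : ℝ) ^ ((S lam).weight : ℝ)) ∧
    (∃ lam ∈ box H.rank m,
      (¬ Summable fun p : Nat.Primes =>
        ‖((S lam).frob p).sum‖ / (p : ℝ) ^ (((S lam).weight : ℝ) / 2 + 1)) ∧
      ∀ B : Nat.Primes → ℂ[X], IsEuler (fun p => endo ((S lam).frob p)) B →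
        Tendsto (fun ε : ℝ => ‖LFun B (1 + ε)‖) (𝓝[>] 0) atTop) ∧
    (∀ B : (Fin l → ℕ) → Nat.Primes → ℂ[X],
      (∀ lam ∈ box H.rank m, IsEuler (fun p => endo ((S lam).frob p)) (B lam)) →
      (∀ η : ℝ, 0 < η → ∀ᶠ ε : ℝ in 𝓝[>] 0,
        1 ≤ (wt H.rank l : ℝ) * ∑ lam ∈ box H.rank m, size (B lam) ε + η) ∧
      ∀ r : (Fin l → ℕ) → ℤ, (∀ lam ∈ box H.rank m, HasOrder (B lam) (-(r lam))) →
        (∀ lam ∈ box H.rank m, 0 ≤ r lam) ∧ ∃ lam ∈ box H.rank m, 1 ≤ r lam) ∧
    (∀ (H' : Motive) (B' : Nat.Primes → ℂ[X]) (B : (Fin l → ℕ) → Nat.Primes → ℂ[X]),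
      IsEuler (fun p => endo (H'.frob p)) B' →
      (∀ lam ∈ box H.rank m,
        IsEuler (fun p => endo (tens ((S lam).frob p) (H'.frob p))) (B lam)) →
      (∀ η : ℝ, 0 < η → ∀ᶠ ε : ℝ in 𝓝[>] 0,
        size B' ε ≤ (wt H.rank l : ℝ) * ∑ lam ∈ box H.rank m, size (B lam) ε + η) ∧
      (∀ (r' : ℤ) (r : (Fin l → ℕ) → ℤ), HasOrder B' (-r') →
        (∀ lam ∈ box H.rank m, HasOrder (B lam) (-(r lam))) →
        r' ≤ (wt H.rank l : ℤ) * ∑ lam ∈ box H.rank m, r lam) ∧
      (Tendsto (fun ε : ℝ => ‖LFun B' (1 + ε)‖) (𝓝[>] 0) atTop ↔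
        ∃ lam ∈ box H.rank m,
          Tendsto (fun ε : ℝ => ‖LFun (B lam) (1 + ε)‖) (𝓝[>] 0) atTop)) :=
  main H l hl m S hS

end Pool.Agent.Results.MP_148101_nt.SchurFunctors
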